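import Pool.Agent.Run7.h710.TL.A

set_option autoImplicit false

/-! # Counting -/

namespace Pool.Agent.Run7.h710.TL

open Run7.h738.EX Filter Topology
open scoped Classical

/-- exponential tails give bounds for truncated sums -/
theorem tail_sum {ι : Type} (Wf : Finset ι) (X : ι → ℝ) (K c : ℝ) (hK : 1 ≤ K) (hc : 0 ≤ c)
    (B : ℕ) (hB : ∀ i ∈ Wf, X i ≤ B)
    (ht : ∀ x : ℝ, 0 ≤ x → (((Wf.filter (fun i => K * (1 + x) < X i)).card : ℕ) : ℝ) ≤ Real.exp (-x) * c)
    (x : ℝ) (hx : 0 ≤ x) (T : Finset ι) (hT : T ⊆ Wf) :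
    ∑ i ∈ T, X i ≤ K * (1 + x) * T.card + 2 * K * (Real.exp (-x) * c) := by
  have key : ∀ J : ℕ, ∀ i, min (X i) (K * (1 + x + J)) ≤
      K * (1 + x) + K * ∑ r ∈ Finset.range J, (if K * (1 + (x + r)) < X i then (1 : ℝ) else 0) := by
    intro J i
    induction J with
    | zero =>
      simp only [Nat.cast_zero, add_zero, Finset.range_zero, Finset.sum_empty, mul_zero]
      exact min_le_right _ _
    | succ J ih =>
      rw [Finset.sum_range_succ]
      by_cases h : K * (1 + (x + J)) < X i
      · rw [if_pos h]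
        have h1 : min (X i) (K * (1 + x + J)) = K * (1 + x + J) := by
          rw [min_eq_right]
          have : K * (1 + x + J) = K * (1 + (x + J)) := by ring
          rw [this]
          exact h.le
        rw [h1] at ih
        refine (min_le_right _ _).trans ?_
        push_cast
        linarith
      · rw [if_neg h]
        push Not at h
        have h1 : X i ≤ K * (1 + x + J) := by
          have : K * (1 + x + J) = K * (1 + (x + J)) := by ring
          rw [this]
          exact h
        rw [min_eq_left h1] at ih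
        refine (min_le_left _ _).trans ?_
        rw [add_zero]
        exact ih
  have h1 : ∀ i ∈ T, X i ≤ K * (1 + x) +
      K * ∑ r ∈ Finset.range B, (if K * (1 + (x + r)) < X i then (1 : ℝ) else 0) := by
    intro i hi
    have h2 := key B i
    have h3 : X i ≤ K * (1 + x + B) := by
      have h4 := hB i (hT hi)
      have h5 : (0 : ℝ) ≤ B := Nat.cast_nonneg _
      nlinarith
    rwa [min_eq_left h3] at h2
  refine (Finset.sum_le_sum h1).trans ?_
  rw [Finset.sum_add_distrib, Finset.sum_const, nsmul_eq_mul, ← Finset.mul_sum, Finset.sum_comm]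
  have h2 : ∑ r ∈ Finset.range B, ∑ i ∈ T, (if K * (1 + (x + r)) < X i then (1 : ℝ) else 0) ≤
      ∑ r ∈ Finset.range B, (1 / 2 : ℝ) ^ r * (Real.exp (-x) * c) := by
    refine Finset.sum_le_sum fun r _ => ?_
    have h3 : ∑ i ∈ T, (if K * (1 + (x + r)) < X i then (1 : ℝ) else 0) ≤
        (((Wf.filter (fun i => K * (1 + (x + r)) < X i)).card : ℕ) : ℝ) := by
      rw [← Finset.sum_filter, Finset.sum_const, nsmul_eq_mul, mul_one]
      exact_mod_cast Finset.card_le_card (Finset.filter_subset_filter _ hT)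
    refine h3.trans ((ht _ (by positivity)).trans ?_)
    rw [neg_add, Real.exp_add]
    have h4 : Real.exp (-(r : ℝ)) ≤ (1 / 2) ^ r := by
      have h5 : Real.exp (-(r : ℝ)) = Real.exp (-1) ^ r := by
        rw [← Real.exp_nat_mul]
        congr 1
        ring
      rw [h5]
      refine pow_le_pow_left₀ (Real.exp_pos _).le ?_ _
      have h6 := Real.exp_neg_one_lt_d9
      linarith
    have h7 : 0 ≤ Real.exp (-x) * c := mul_nonneg (Real.exp_pos _).le hc
    calc Real.exp (-x) * Real.exp (-(r : ℝ)) * c = Real.exp (-(r : ℝ)) * (Real.exp (-x) * c) := by ring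
      _ ≤ _ := mul_le_mul_of_nonneg_right h4 h7
  have h3 : ∑ r ∈ Finset.range B, (1 / 2 : ℝ) ^ r * (Real.exp (-x) * c) ≤ 2 * (Real.exp (-x) * c) := by
    rw [← Finset.sum_mul]
    refine mul_le_mul_of_nonneg_right ?_ (mul_nonneg (Real.exp_pos _).le hc)
    exact sum_geometric_two_le B
  have h4 := mul_le_mul_of_nonneg_left (h2.trans h3) (by linarith : 0 ≤ K)
  have e : (T.card : ℝ) * (K * (1 + x)) = K * (1 + x) * T.card := by ring
  rw [e]
  linarith

variable {d : ℕ}

/-- the lattice with the height `- x_j` -/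
noncomputable abbrev LL (j : Fin d) : Lay (Fin d → ℤ) := zd j (-1) (Or.inr rfl)

theorem mem_NM0 {V : Type} (L : Lay V) {l : List V} {y : ℕ} {v : V} :
    v ∈ NM L l y ↔ v ∈ l ∧ ∀ w ∈ l, L.h w ≤ L.h v + y := by
  unfold NM
  rw [Finset.mem_filter, List.mem_toFinset]

theorem mem_NM (j : Fin d) {l : List (Fin d → ℤ)} {y : ℕ} {v : Fin d → ℤ} :
    v ∈ NM (LL j) l y ↔ v ∈ l ∧ ∀ w ∈ l, v j ≤ w j + y := by
  rw [mem_NM0]
  refine and_congr_right fun _ => ?_
  refine forall_congr' fun w => forall_congr' fun _ => ?_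
  show (-1 : ℤ) * w j ≤ (-1) * v j + y ↔ _
  constructor <;> intro h <;> omega

/-- the times of the lowest sites -/
theorem card_times (j : Fin d) {n : ℕ} {l : List (Fin d → ℤ)} (h1 : l.length = n + 1) (h4 : l.Nodup) :
    ((Finset.range (n + 1)).filter (fun k => ∀ w ∈ l, (l.getD k 0) j ≤ w j)).card = (NM (LL j) l 0).card := by
  refine Finset.card_bij (fun k _ => l.getD k 0) ?_ ?_ ?_
  · intro k hk
    rw [Finset.mem_filter, Finset.mem_range] at hk
    rw [mem_NM]
    refine ⟨getD_mem (by omega), fun w hw => ?_⟩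
    have := hk.2 w hw
    push_cast
    omega
  · intro k hk k' hk' h
    rw [Finset.mem_filter, Finset.mem_range] at hk hk'
    have e1 : k < l.length := by omega
    have e2 : k' < l.length := by omega
    beta_reduce at h
    rw [List.getD_eq_getElem l 0 e1, List.getD_eq_getElem l 0 e2] at h
    exact (h4.getElem_inj_iff).1 h
  · intro v hv
    rw [mem_NM] at hv
    obtain ⟨k, hk, e⟩ := List.getElem_of_mem hv.1
    have hg : l.getD k 0 = v := by rw [List.getD_eq_getElem l 0 hk, e]
    refine ⟨k, ?_, hg⟩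
    rw [Finset.mem_filter, Finset.mem_range]
    refine ⟨by omega, fun w hw => ?_⟩
    rw [hg]
    have := hv.2 w hw
    push_cast at this
    omega

/-- the sum over the times -/
theorem sum_low (j : Fin d) (n : ℕ) (E : List (Fin d → ℤ) → Prop) :
    ∑ k ∈ Finset.range (n + 1), ({l | l ∈ low j n k ∧ E l} : Set (List (Fin d → ℤ))).ncard =
      ∑ l ∈ (WF (LL j) Set.univ 0 n).filter E, (NM (LL j) l 0).card := by
  have h1 : ∀ k, ({l | l ∈ low j n k ∧ E l} : Set (List (Fin d → ℤ))).ncard =
      (((WF (LL j) Set.univ 0 n).filter E).filter (fun l => ∀ w ∈ l, (l.getD k 0) j ≤ w j)).card := by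
    intro k
    rw [← Set.ncard_coe_finset]
    congr 1
    ext l
    rw [Finset.mem_coe, Finset.mem_filter, Finset.mem_filter, mem_WF]
    constructor
    · rintro ⟨⟨h1, h2⟩, h3⟩
      exact ⟨⟨h1, h3⟩, h2⟩
    · rintro ⟨⟨h1, h3⟩, h2⟩
      exact ⟨⟨h1, h2⟩, h3⟩
  simp only [h1, Finset.card_filter]
  rw [Finset.sum_comm]
  refine Finset.sum_congr rfl fun l hl => ?_
  rw [Finset.mem_filter, mem_WF] at hl
  rw [← Finset.card_filter, card_times j hl.1.1 hl.1.2.2.2.1]

theorem NM_le_length {V : Type} (L : Lay V) (l : List V) (y : ℕ) : (NM L l y).card ≤ l.length := by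
  unfold NM
  exact (Finset.card_filter_le _ _).trans (List.toFinset_card_le l)

/-- the sum over the times, all walks -/
theorem sum_low_all (j : Fin d) (n : ℕ) :
    ∑ k ∈ Finset.range (n + 1), (low j n k).ncard =
      ∑ l ∈ WF (LL j) Set.univ 0 n, (NM (LL j) l 0).card := by
  have h1 : ∀ k, (low j n k).ncard =
      ((WF (LL j) Set.univ 0 n).filter (fun l => ∀ w ∈ l, (l.getD k 0) j ≤ w j)).card := by
    intro k
    rw [← Set.ncard_coe_finset]
    congr 1
    ext l
    rw [Finset.mem_coe, Finset.mem_filter, mem_WF]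
    constructor
    · rintro ⟨h1, h2⟩
      exact ⟨h1, h2⟩
    · rintro ⟨h1, h2⟩
      exact ⟨h1, h2⟩
  simp only [h1, Finset.card_filter]
  rw [Finset.sum_comm]
  refine Finset.sum_congr rfl fun l hl => ?_
  rw [mem_WF] at hl
  rw [← Finset.card_filter, card_times j hl.1 hl.2.2.2.1]

/-- pairs with a property -/
theorem pairs_ncard' (j : Fin d) {n k : ℕ} (hk : k ≤ n)
    (F : List (Fin d → ℤ) × List (Fin d → ℤ) → Prop) :
    ({p | p ∈ pairs j k (n - k) ∧ F p} : Set (List (Fin d → ℤ) × List (Fin d → ℤ))).ncard =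
      ({l | l ∈ low j n k ∧ F (legs k l)} : Set (List (Fin d → ℤ))).ncard := by
  have h : legs k '' {l | l ∈ low j n k ∧ F (legs k l)} = {p | p ∈ pairs j k (n - k) ∧ F p} := by
    ext p
    constructor
    · rintro ⟨l, ⟨hl, h2⟩, rfl⟩
      exact ⟨legs_mem j hk hl, h2⟩
    · rintro ⟨hp, h2⟩
      obtain ⟨l, hl, e⟩ := legs_surj j hk hp
      refine ⟨l, ⟨hl, ?_⟩, e⟩
      rw [e]
      exact h2
  rw [← h, Set.InjOn.ncard_image ((legs_inj j hk).mono fun l hl => hl.1)]

/-- the sites of the two legs near the boundary -/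
def near (j : Fin d) (y : ℕ) (p : List (Fin d → ℤ) × List (Fin d → ℤ)) : Set (Fin d → ℤ) :=
  {v | (v ∈ p.1 ∨ v ∈ p.2) ∧ v j ≤ y}

theorem near_legs (j : Fin d) {n k : ℕ} (y : ℕ) {l : List (Fin d → ℤ)} (hk : k ≤ n) (hl : l ∈ low j n k) :
    (near j y (legs k l)).ncard = (NM (LL j) l y).card := by
  obtain ⟨⟨h1, -⟩, h5⟩ := hl
  have hkl : k < l.length := by omega
  have hv : l.getD k 0 ∈ l := getD_mem hkl
  have h : near j y (legs k l) = (fun w => w - l.getD k 0) '' ((NM (LL j) l y : Finset _) : Set (Fin d → ℤ)) := by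
    ext u
    constructor
    · rintro ⟨hu, hy⟩
      have h6 : ∃ w ∈ l, u = w - l.getD k 0 := by
        rcases hu with hu | hu
        · obtain ⟨w, hw, e⟩ := mem_sh.1 (show u ∈ sh (l.getD k 0) (l.take (k + 1)).reverse from hu)
          exact ⟨w, List.mem_of_mem_take (List.mem_reverse.1 hw), e⟩
        · obtain ⟨w, hw, e⟩ := mem_sh.1 (show u ∈ sh (l.getD k 0) (l.drop k) from hu)
          exact ⟨w, List.mem_of_mem_drop hw, e⟩
      obtain ⟨w, hw, rfl⟩ := h6
      refine ⟨w, ?_, rfl⟩
      rw [Finset.mem_coe, mem_NM]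
      refine ⟨hw, fun w' hw' => ?_⟩
      rw [Pi.sub_apply] at hy
      have := h5 w' hw'
      omega
    · rintro ⟨w, hw, rfl⟩
      rw [Finset.mem_coe, mem_NM] at hw
      refine ⟨?_, ?_⟩
      · have h6 : w ∈ l.take (k + 1) ∨ w ∈ l.drop k := by
          have h7 : w ∈ l.take k ++ l.drop k := by
            rw [List.take_append_drop]
            exact hw.1
          rw [List.mem_append] at h7
          rcases h7 with h7 | h7
          · left
            exact (List.take_subset_take_left l (Nat.le_succ k)) h7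
          · exact Or.inr h7
        rcases h6 with h6 | h6
        · exact Or.inl (mem_sh.2 ⟨w, List.mem_reverse.2 h6, rfl⟩)
        · exact Or.inr (mem_sh.2 ⟨w, h6, rfl⟩)
      · show (w - l.getD k 0) j ≤ y
        rw [Pi.sub_apply]
        have := hw.2 _ hv
        omega
  rw [h, Set.ncard_image_of_injective _ sub_left_injective, Set.ncard_coe_finset]

end Pool.Agent.Run7.h710.TL
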