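import Pool.Agent.Run7.h738.EX.Zd

set_option autoImplicit false

/-! # Cutting a self-avoiding walk of `ℤ^d` at one of its lowest sites -/

namespace Pool.Agent.Run7.h710.TL

open Run7.h738.EX

variable {d : ℕ}

/-- the walks of `helper738` -/
def W (D : Set (Fin d → ℤ)) (o : Fin d → ℤ) (n : ℕ) : Set (List (Fin d → ℤ)) :=
  {l | l.length = n + 1 ∧ l.head? = some o ∧ l.IsChain nnb ∧ l.Nodup ∧ ∀ v ∈ l, v ∈ D}

/-- translation of a list of points -/
def sh (c : Fin d → ℤ) (l : List (Fin d → ℤ)) : List (Fin d → ℤ) := l.map (fun x => x - c)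

theorem nnb_symm {v w : Fin d → ℤ} (h : nnb v w) : nnb w v := by
  unfold nnb at *
  rw [← h]
  exact Finset.sum_congr rfl fun i _ => abs_sub_comm _ _

theorem nnb_sub (c : Fin d → ℤ) {v w : Fin d → ℤ} : nnb (v - c) (w - c) ↔ nnb v w := by
  unfold nnb
  simp only [Pi.sub_apply, sub_sub_sub_cancel_right]

theorem sh_length (c : Fin d → ℤ) (l : List (Fin d → ℤ)) : (sh c l).length = l.length := by
  unfold sh
  rw [List.length_map]

theorem mem_sh {c v : Fin d → ℤ} {l : List (Fin d → ℤ)} : v ∈ sh c l ↔ ∃ w ∈ l, v = w - c := by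
  unfold sh
  rw [List.mem_map]
  exact ⟨fun ⟨w, h, e⟩ => ⟨w, h, e.symm⟩, fun ⟨w, h, e⟩ => ⟨w, h, e.symm⟩⟩

theorem sh_inj (c : Fin d → ℤ) {l l' : List (Fin d → ℤ)} (h : sh c l = sh c l') : l = l' := by
  unfold sh at h
  exact List.map_injective_iff.2 (sub_left_injective) h

theorem sh_nodup (c : Fin d → ℤ) {l : List (Fin d → ℤ)} : (sh c l).Nodup ↔ l.Nodup := by
  unfold sh
  exact List.nodup_map_iff sub_left_injective

theorem sh_chain (c : Fin d → ℤ) {l : List (Fin d → ℤ)} : (sh c l).IsChain nnb ↔ l.IsChain nnb := by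
  unfold sh
  rw [List.isChain_map]
  constructor
  · intro h
    exact h.imp (fun _ _ h => (nnb_sub c).1 h)
  · intro h
    exact h.imp (fun _ _ h => (nnb_sub c).2 h)

theorem sh_head (c : Fin d → ℤ) (l : List (Fin d → ℤ)) : (sh c l).head? = l.head?.map (fun x => x - c) := by
  unfold sh
  rw [List.head?_map]

theorem sh_sh (c c' : Fin d → ℤ) (l : List (Fin d → ℤ)) : sh c (sh c' l) = sh (c + c') l := by
  unfold sh
  rw [List.map_map]
  congr 1
  funext x
  simp only [Function.comp]
  abel

theorem sh_zero (l : List (Fin d → ℤ)) : sh 0 l = l := by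
  unfold sh
  simp

/-- the upper half-space -/
def half (j : Fin d) : Set (Fin d → ℤ) := {v | 0 ≤ v j}

/-- pairs of mutually avoiding walks in the half-space -/
def pairs (j : Fin d) (k m : ℕ) : Set (List (Fin d → ℤ) × List (Fin d → ℤ)) :=
  {p | p.1 ∈ W (half j) 0 k ∧ p.2 ∈ W (half j) 0 m ∧ ∀ v, v ∈ p.1 → v ∈ p.2 → v = 0}

/-- the two legs -/
def legs (k : ℕ) (l : List (Fin d → ℤ)) : List (Fin d → ℤ) × List (Fin d → ℤ) :=
  (sh (l.getD k 0) (l.take (k + 1)).reverse, sh (l.getD k 0) (l.drop k))

/-- the walks whose site at time `k` is a lowest one -/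
def low (j : Fin d) (n k : ℕ) : Set (List (Fin d → ℤ)) :=
  {l | l ∈ W Set.univ 0 n ∧ ∀ w ∈ l, (l.getD k 0) j ≤ w j}

theorem getD_mem {l : List (Fin d → ℤ)} {k : ℕ} (h : k < l.length) : l.getD k 0 ∈ l := by
  rw [List.getD_eq_getElem l 0 h]
  exact List.getElem_mem h

theorem legs_mem (j : Fin d) {n k : ℕ} (hk : k ≤ n) {l : List (Fin d → ℤ)} (hl : l ∈ low j n k) :
    legs k l ∈ pairs j k (n - k) := by
  obtain ⟨⟨h1, h2, h3, h4, -⟩, h5⟩ := hl
  have hkl : k < l.length := by omega
  set v := l.getD k 0 with hv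
  have hvk : v = l[k] := List.getD_eq_getElem l 0 hkl
  have hd : l.drop k = l[k] :: l.drop (k + 1) := List.drop_eq_getElem_cons hkl
  have ht : l.take (k + 1) = l.take k ++ [l[k]] := (List.take_succ_eq_append_getElem hkl)
  refine ⟨⟨?_, ?_, ?_, ?_, ?_⟩, ⟨?_, ?_, ?_, ?_, ?_⟩, ?_⟩
  · show (sh v (l.take (k + 1)).reverse).length = k + 1
    rw [sh_length, List.length_reverse, List.length_take]
    omega
  · show (sh v (l.take (k + 1)).reverse).head? = some 0
    rw [sh_head, ht, List.reverse_append]
    simp only [List.reverse_cons, List.reverse_nil, List.nil_append, List.cons_append,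
      List.head?_cons, Option.map_some]
    rw [← hvk, sub_self]
  · show (sh v (l.take (k + 1)).reverse).IsChain nnb
    rw [sh_chain, List.isChain_reverse]
    exact (h3.take (k + 1)).imp (fun _ _ h => nnb_symm h)
  · show (sh v (l.take (k + 1)).reverse).Nodup
    rw [sh_nodup, List.nodup_reverse]
    exact h4.sublist (List.take_sublist _ _)
  · intro w hw
    obtain ⟨u, hu, rfl⟩ := mem_sh.1 (show w ∈ sh v (l.take (k + 1)).reverse from hw)
    have hu' : u ∈ l := List.mem_of_mem_take (List.mem_reverse.1 hu)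
    show 0 ≤ (u - v) j
    rw [Pi.sub_apply]
    have := h5 u hu'
    omega
  · show (sh v (l.drop k)).length = n - k + 1
    rw [sh_length, List.length_drop]
    omega
  · show (sh v (l.drop k)).head? = some 0
    rw [sh_head, hd]
    simp only [List.head?_cons, Option.map_some]
    rw [← hvk, sub_self]
  · show (sh v (l.drop k)).IsChain nnb
    rw [sh_chain]
    exact h3.drop k
  · show (sh v (l.drop k)).Nodup
    rw [sh_nodup]
    exact h4.sublist (List.drop_sublist _ _)
  · intro w hw
    obtain ⟨u, hu, rfl⟩ := mem_sh.1 (show w ∈ sh v (l.drop k) from hw)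
    have hu' : u ∈ l := List.mem_of_mem_drop hu
    show 0 ≤ (u - v) j
    rw [Pi.sub_apply]
    have := h5 u hu'
    omega
  · intro w hw1 hw2
    obtain ⟨u, hu, e1⟩ := mem_sh.1 (show w ∈ sh v (l.take (k + 1)).reverse from hw1)
    obtain ⟨u', hu', e2⟩ := mem_sh.1 (show w ∈ sh v (l.drop k) from hw2)
    have he : u' = u := by
      have := e1.symm.trans e2
      exact (sub_left_injective this).symm
    subst he
    rw [List.mem_reverse] at hu
    rw [hd, List.mem_cons] at hu'
    rcases hu' with hu' | hu'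
    · rw [e1, hu', ← hvk, sub_self]
    · exfalso
      have h6 : (l.take (k + 1) ++ l.drop (k + 1)).Nodup := by
        rw [List.take_append_drop]
        exact h4
      rw [List.nodup_append'] at h6
      exact h6.2.2 hu hu'

theorem legs_inj (j : Fin d) {n k : ℕ} (hk : k ≤ n) : Set.InjOn (legs k) (low j n k) := by
  rintro l ⟨⟨h1, h2, h3, h4, -⟩, h5⟩ l' ⟨⟨h1', h2', h3', h4', -⟩, h5'⟩ he
  have e1 : sh (l.getD k 0) (l.take (k + 1)).reverse = sh (l'.getD k 0) (l'.take (k + 1)).reverse :=
    congrArg Prod.fst he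
  have e2 : sh (l.getD k 0) (l.drop k) = sh (l'.getD k 0) (l'.drop k) := congrArg Prod.snd he
  have hlast : ∀ L : List (Fin d → ℤ), L.length = n + 1 → L.head? = some 0 →
      (sh (L.getD k 0) (L.take (k + 1)).reverse).getLast? = some (0 - L.getD k 0) := by
    intro L hL1 hL2
    unfold sh
    rw [List.getLast?_map, List.getLast?_reverse]
    have : (L.take (k + 1)).head? = some 0 := by
      rw [List.head?_take, if_neg (by omega)]
      exact hL2
    rw [this]
    rfl
  have e3 : l.getD k 0 = l'.getD k 0 := by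
    have h6 := hlast l h1 h2
    rw [e1, hlast l' h1' h2'] at h6
    have h7 := Option.some.inj h6
    have h8 : (0 : Fin d → ℤ) - l'.getD k 0 = 0 - l.getD k 0 := h7
    exact (sub_right_injective h8).symm
  rw [e3] at e1 e2
  have e4 := sh_inj _ e1
  have e5 := sh_inj _ e2
  have e6 : l.take (k + 1) = l'.take (k + 1) := List.reverse_injective e4
  have e7 : l.drop (k + 1) = l'.drop (k + 1) := by
    have : ∀ L : List (Fin d → ℤ), L.drop (k + 1) = (L.drop k).tail := by
      intro L
      rw [List.tail_drop]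
    rw [this, this, e5]
  rw [← List.take_append_drop (k + 1) l, ← List.take_append_drop (k + 1) l', e6, e7]

theorem legs_surj (j : Fin d) {n k : ℕ} (hk : k ≤ n) {p : List (Fin d → ℤ) × List (Fin d → ℤ)}
    (hp : p ∈ pairs j k (n - k)) : ∃ l ∈ low j n k, legs k l = p := by
  obtain ⟨a, b⟩ := p
  obtain ⟨⟨a1, a2, a3, a4, a5⟩, ⟨b1, b2, b3, b4, b5⟩, hab⟩ := hp
  simp only at a1 a2 a3 a4 a5 b1 b2 b3 b4 b5 hab
  obtain ⟨a', rfl⟩ : ∃ a', a = 0 :: a' := by
    match a, a2 with
    | x :: a', h => exact ⟨a', by simp only [List.head?_cons, Option.some.injEq] at h; rw [h]⟩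
  obtain ⟨b', rfl⟩ : ∃ b', b = 0 :: b' := by
    match b, b2 with
    | x :: b', h => exact ⟨b', by simp only [List.head?_cons, Option.some.injEq] at h; rw [h]⟩
  set c := (0 :: a').getLast (List.cons_ne_nil _ _) with hc
  set m : List (Fin d → ℤ) := (0 :: a').reverse ++ b' with hm
  have hlen : m.length = n + 1 := by
    rw [hm, List.length_append, List.length_reverse, a1]
    rw [List.length_cons] at b1
    omega
  have hra : (0 :: a').reverse.length = k + 1 := by rw [List.length_reverse, a1]
  have hmk : m.getD k 0 = 0 := by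
    rw [hm, List.getD_append _ _ _ _ (by omega), List.reverse_cons, List.getD_append_right _ _ _ _ (by
      rw [List.length_reverse]
      rw [List.length_cons] at a1
      omega)]
    rw [List.length_reverse]
    rw [List.length_cons] at a1
    have : k - a'.length = 0 := by omega
    rw [this]
    rfl
  have htk : m.take (k + 1) = (0 :: a').reverse := by
    rw [hm, ← hra, List.take_left]
  have hdk : m.drop k = 0 :: b' := by
    have hkm : k < m.length := by omega
    rw [List.drop_eq_getElem_cons hkm]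
    have : m[k] = 0 := by
      rw [← List.getD_eq_getElem m 0 hkm]
      exact hmk
    rw [this]
    congr 1
    rw [hm, ← hra, List.drop_left]
  have hnn : m.Nodup := by
    rw [hm, List.nodup_append']
    refine ⟨List.nodup_reverse.2 a4, (List.nodup_cons.1 b4).2, ?_⟩
    intro x hx hx'
    rw [List.mem_reverse] at hx
    have := hab x hx (List.mem_cons_of_mem _ hx')
    rw [this] at hx'
    exact (List.nodup_cons.1 b4).1 hx'
  have hch : m.IsChain nnb := by
    rw [hm, List.isChain_append]
    refine ⟨?_, ?_, ?_⟩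
    · rw [List.isChain_reverse]
      exact a3.imp (fun _ _ h => nnb_symm h)
    · exact b3.tail
    · intro x hx y hy
      rw [List.getLast?_reverse] at hx
      simp only [List.head?_cons, Option.mem_def, Option.some.injEq] at hx
      subst hx
      match b', b3, hy with
      | z :: b'', b3, hy =>
        simp only [List.head?_cons, Option.mem_def, Option.some.injEq] at hy
        subst hy
        exact (List.isChain_cons_cons.1 b3).1
  have hhalf : ∀ w ∈ m, 0 ≤ w j := by
    intro w hw
    rw [hm, List.mem_append, List.mem_reverse] at hw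
    rcases hw with hw | hw
    · exact a5 w hw
    · exact b5 w (List.mem_cons_of_mem _ hw)
  have hgetD : ∀ i < n + 1, (sh c m).getD i 0 = m.getD i 0 - c := by
    intro i hi
    have h1 : i < (sh c m).length := by rw [sh_length]; omega
    have h2 : i < m.length := by omega
    rw [List.getD_eq_getElem _ 0 h1, List.getD_eq_getElem _ 0 h2]
    unfold sh
    rw [List.getElem_map]
  have hg : (sh c m).getD k 0 = 0 - c := by
    rw [hgetD k (by omega), hmk]
  refine ⟨sh c m, ⟨⟨?_, ?_, ?_, ?_, fun _ _ => Set.mem_univ _⟩, ?_⟩, ?_⟩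
  · rw [sh_length, hlen]
  · rw [sh_head]
    have : m.head? = some c := by
      rw [hm, List.head?_append, List.head?_reverse, List.getLast?_eq_some_getLast (List.cons_ne_nil _ _)]
      rfl
    rw [this]
    simp
  · rw [sh_chain]
    exact hch
  · rw [sh_nodup]
    exact hnn
  · intro w hw
    obtain ⟨u, hu, rfl⟩ := mem_sh.1 hw
    rw [hg]
    simp only [Pi.sub_apply, Pi.zero_apply]
    have := hhalf u hu
    omega
  · unfold legs
    rw [hg]
    have e1 : (sh c m).take (k + 1) = sh c (m.take (k + 1)) := by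
      unfold sh
      rw [List.map_take]
    have e2 : (sh c m).drop k = sh c (m.drop k) := by
      unfold sh
      rw [List.map_drop]
    have e3 : ∀ q : List (Fin d → ℤ), sh (0 - c) (sh c q) = q := by
      intro q
      rw [sh_sh]
      have : (0 - c) + c = 0 := by abel
      rw [this, sh_zero]
    have e4 : ∀ q : List (Fin d → ℤ), (sh c q).reverse = sh c q.reverse := by
      intro q
      unfold sh
      rw [List.map_reverse]
    rw [e1, e2, htk, hdk, e4, List.reverse_reverse, e3, e3]

theorem W_finite (j : Fin d) (D : Set (Fin d → ℤ)) (o : Fin d → ℤ) (n : ℕ) : (W D o n).Finite :=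
  WK_finite (zd j 1 (Or.inl rfl)) D o n

theorem pairs_ncard (j : Fin d) {n k : ℕ} (hk : k ≤ n) :
    (pairs j k (n - k)).ncard = (low j n k).ncard := by
  have h : legs k '' (low j n k) = pairs j k (n - k) := by
    ext p
    constructor
    · rintro ⟨l, hl, rfl⟩
      exact legs_mem j hk hl
    · intro hp
      obtain ⟨l, hl, e⟩ := legs_surj j hk hp
      exact ⟨l, hl, e⟩
  rw [← h, Set.ncard_image_of_injOn (legs_inj j hk)]

end Pool.Agent.Run7.h710.TL
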